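import Pool.Agent.Helper98.TA.Stmts
import Pool.Agent.Helper73.TWR.IAJ

/-!
Row BGN of the sheet TA: the extension by an invariant set of functions.
-/

open MeasureTheory Filter Topology Finset
open scoped ComplexConjugate

namespace Pool.Agent.Helper73.TA

open Pool.Agent.Helper98.TW Pool.Agent.Helper98.TA
open Pool.Agent.Helper73.TWR (jo_le sg_le sg_le_map ia_le am_comp_of qmp le_jo_left)

theorem st_BGN : ST_BGN := by
  intro Ω m0 μ _ S S' D Φ hS hD hΦ
  have hm : @LE.le (MeasurableSpace Ω) _ (sg Φ) m0 := sg_le fun φ hφ => (hΦ φ hφ).1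
  refine ⟨jo_le hD.1 hm, fun f hf => ⟨?_, ?_⟩⟩
  · refine am_comp_of (qmp hS.mp) (jo_le ?_ ?_) hf
    · exact ia_le (fun f hf => (hD.2 f hf).1) (le_jo_left _ _)
    · exact sg_le_map fun φ hφ => (hΦ φ hφ).2.1
  · refine am_comp_of (qmp hS.mp') (jo_le ?_ ?_) hf
    · exact ia_le (fun f hf => (hD.2 f hf).2) (le_jo_left _ _)
    · exact sg_le_map fun φ hφ => (hΦ φ hφ).2.2

end Pool.Agent.Helper73.TA
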