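import Pool.Agent.Helper98.TA.Basic
import Pool.Agent.Helper73.TWR.Tool

/-!
Row VC1 of the sheet TA: the splitting of functions in a class.
-/

set_option linter.unusedSectionVars false

open MeasureTheory Filter Topology Finset
open scoped ComplexConjugate

namespace Pool.Agent.Helper73.TA

open Pool.Agent.Helper98.TW Pool.Agent.Helper98.TA
open Pool.Agent.Helper73.TWR (ce_am ce_int ce_tower ce_congr ce_sub ce_of_am ce_mul_zero
  ce_zero_lq ce_zero ce_symm int_ce pullb sub_ce_sq AB bf_sub bf_zero ab_ind ind am_ind)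
open Pool.Agent.Helper40.TWM (St)
open Pool.Agent.Helper98.GY (JY)

section

variable {Ω : Type} [m0 : MeasurableSpace Ω] {μ : Measure Ω} [IsProbabilityMeasure μ]

/-- the density argument for conditional expectations -/
theorem dnsz (hDNS : ST_DNS) {C : SA Ω} {Θ : Set (Ω → ℂ)} {X : Ω → ℂ} (hCl : Lm C)
    (hΘ : Grp μ Θ) (hX : Integrable X μ)
    (h : ∀ θ ∈ Θ, μ[fun x => conj (θ x) * X x|C] =ᵐ[μ] 0) :
    μ[X|jo C (sg Θ)] =ᵐ[μ] 0 := by
  have hD : Lm (jo C (sg Θ)) := lm_jo hCl (lm_sg fun φ hφ => (hΘ.uf φ hφ).1)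
  refine hDNS Ω μ C Θ _ hCl hΘ ce_int ce_am fun θ hθ => ?_
  have hu := hΘ.uf θ hθ
  have a1 : μ[fun x => conj (θ x) * X x|jo C (sg Θ)] =ᵐ[μ]
      fun x => conj (θ x) * (μ[X|jo C (sg Θ)]) x :=
    pullb (am_conj (am_jo_right (am_sg hθ))) hu.conj.ab hX
  have a2 := ce_tower hCl hD lq_jo_left (hu.conj.ab.int_mul hX)
  have a4 : (fun x => (μ[X|jo C (sg Θ)]) x * conj (θ x)) =ᵐ[μ]
      μ[fun x => conj (θ x) * X x|jo C (sg Θ)] := by
    filter_upwards [a1] with x hx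
    rw [hx, mul_comm]
  exact ((ce_congr a4).trans a2).trans (h θ hθ)

/-- the function of the first coordinate which represents `k` -/
theorem exists_K (hPFC : ST_PFC) {κ : Measure (Ω × Ω)} [IsProbabilityMeasure κ]
    (mp1 : MeasurePreserving Prod.fst κ μ) {k : Ω × Ω → ℂ} (hk : AB κ k) :
    ∃ K : Ω → ℂ, AB μ K ∧ ∀ u : Ω → ℂ, AB μ u →
      ∫ z, u z.1 * k z ∂κ = ∫ x, u x * K x ∂μ := by
  let top : SA Ω := m0
  have htop : Lm top := fun _ h => h
  obtain ⟨K, hKm, _, hK⟩ := (hPFC _ _ κ μ Prod.fst top mp1 htop).2.2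
    (κ[k|cm Prod.fst top]) ce_am
  have hl : Lm (cm (Prod.fst : Ω × Ω → Ω) top) := lm_cm measurable_fst htop
  have hKab : AB μ K := by
    refine ⟨hKm.aestronglyMeasurable, ?_⟩
    obtain ⟨B, hB⟩ := (hk.ce hl).2
    refine ⟨B, ?_⟩
    rw [← mp1.map_eq]
    refine (ae_map_iff mp1.measurable.aemeasurable
      (measurableSet_le hKm.norm measurable_const)).2 ?_
    filter_upwards [hB, hK] with z hz hz2
    rw [← hz2]; exact hz
  refine ⟨K, hKab, fun u hu => ?_⟩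
  have huA : AM κ (cm Prod.fst top) (fun z : Ω × Ω => u z.1) :=
    ((hPFC _ _ κ μ Prod.fst top mp1 htop).2.1 u hu.1).2 hu.1
  have e1 := int_ce hl huA (hu.comp mp1) hk.int
  rw [← e1]
  have e2 : ∫ z, u z.1 * (κ[k|cm Prod.fst top]) z ∂κ = ∫ z, (fun x => u x * K x) z.1 ∂κ := by
    refine integral_congr_ae ?_
    filter_upwards [hK] with z hz
    rw [hz]
  rw [e2]
  conv_rhs => rw [← mp1.map_eq]
  rw [integral_map mp1.measurable.aemeasurable]
  rw [mp1.map_eq]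
  exact (hu.mul hKab).1

/-- functions which are not visible are orthogonal to the second coordinate -/
theorem invis (hLZ : ST_LZ) (hIAJ : ST_IAJ) (hPFC : ST_PFC) {S S' : Ω → Ω} {p q : ℕ}
    {κ : Measure (Ω × Ω)} {D : SA Ω} (hS : St μ S S') (hJ : JY S μ p q κ) (hD : IA μ D S S')
    {ψ c : Ω → ℂ} (hψ : UF μ ψ) (hi : Inc μ D S^[p] ψ) (hnv : ¬ Vi κ D ψ) (hc : AB μ c)
    (hcD : AM μ D c) : κ[fun z => c z.1 * ψ z.1|B2 Ω] =ᵐ[κ] 0 := by
  have := hJ.prob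
  have hs := St.s1 hS
  have hsκ := sys_jy hs hJ
  have hVia : IA κ (jo (B2 Ω) (J1 D)) (Prod.map S^[p] S^[q]) (Prod.map S'^[p] S'^[q]) :=
    (hIAJ _ κ _ _ hsκ).1 _ _ (ia_B2 hs hJ) (ia_J1 hs hJ hD)
  have hψκ : UF κ (fun z : Ω × Ω => ψ z.1) := uf_J1 hJ hψ
  have hinc : Inc κ (jo (B2 Ω) (J1 D)) (Prod.map S^[p] S^[q]) (fun z : Ω × Ω => ψ z.1) :=
    Inc.lq lq_jo_right (inc_J1 hPFC hs hJ hD.1 hψ hi)
  have hz : κ[fun z => ψ z.1|jo (B2 Ω) (J1 D)] =ᵐ[κ] 0 := by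
    rcases hLZ _ κ _ _ (jo (B2 Ω) (J1 D)) (fun z => ψ z.1) hsκ hJ.erg hVia hψκ hinc with h | h
    · exact h
    · exact absurd h hnv
  have hcκ : AB κ (fun z : Ω × Ω => c z.1) := hc.comp (jy_mp1 hJ)
  have hcA : AM κ (jo (B2 Ω) (J1 D)) (fun z : Ω × Ω => c z.1) :=
    am_jo_right ((am_J1 hPFC hJ hD.1 hc.1).2 hcD)
  have h1 : κ[fun z => c z.1 * ψ z.1|jo (B2 Ω) (J1 D)] =ᵐ[κ] 0 :=
    ce_mul_zero hcA (hcκ.int_mul hψκ.ab.int) hψκ.ab.int hz
  exact ce_zero_lq lm_B2 hVia.1 lq_jo_left (hcκ.int_mul hψκ.ab.int) h1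

end

/-- the unimodular `E`-measurable functions with increments in `C` -/
def Th {Ω : Type} [MeasurableSpace Ω] (μ : Measure Ω) (C E : SA Ω) (R : Ω → Ω) :
    Set (Ω → ℂ) := {u | UF μ u ∧ AM μ E u ∧ Inc μ C R u}

theorem grp_Th {Ω : Type} [MeasurableSpace Ω] {μ : Measure Ω} {C E : SA Ω} {R : Ω → Ω} :
    Grp μ (Th μ C E R) where
  uf := fun _ h => h.1
  one := ⟨uf_one, am_const 1, Pool.Agent.Helper98.TW.inc_one⟩
  mul := fun _ h _ h' => ⟨h.1.mul h'.1, am_mul h.2.1 h'.2.1, h.2.2.mul h'.2.2⟩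
  inv := fun _ h => ⟨h.1.conj, am_conj h.2.1, h.2.2.conj⟩

theorem st_VC1 (hDNS : ST_DNS) (hLZ : ST_LZ) (hIAJ : ST_IAJ) (hPFC : ST_PFC) (hBMT : ST_BMT) :
    ST_VC1 := by
  intro Ω m0 μ _ S S' p q κ D E h F hS hp hq hJ hH hE hh hhi hF hFE hyp
  have := hJ.prob
  have hs := St.s1 hS
  have hsp : Sys μ S^[p] S'^[p] := hS.sys p
  have hep : Ergodic S^[p] μ := hS.erg p hp
  have hDi : IA μ D S S' := hH.ia
  obtain ⟨hCl, hCiff, hCia⟩ := hBMT Ω μ S S' D E hs hDi.1 hE.1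
  have hCi : IA μ (mt μ D E) S S' := hCia hDi hE
  set C : SA Ω := mt μ D E with hC
  have hCD : LQ μ C D := fun f hf => ((hCiff f).1 hf).1
  have hCE : LQ μ C E := fun f hf => ((hCiff f).1 hf).2
  have hFb : AB μ F := hF.ab
  have hmp1 : MeasurePreserving Prod.fst κ μ := jy_mp1 hJ
  by_cases hne : ∃ ψ, UF μ ψ ∧ Inc μ C S^[p] ψ ∧ AM μ E (fun x => conj (h x) * ψ x)
  swap
  · refine ⟨fun _ => 0, F, bf_zero, hF, Eventually.of_forall fun x => by simp, hFE, ?_, le_rfl,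
      ?_⟩
    · intro ψ h1 h2 h3
      exact absurd ⟨ψ, h1, h2, h3⟩ hne
    · have : κ[(fun _ : Ω × Ω => (0 : ℂ))|B2 Ω] = 0 := condExp_zero
      rw [this]
  -- the choice of the function of the class
  obtain ⟨ψ₁, hψ₁, hψ₁i, hψ₁E, hψ₁D⟩ : ∃ ψ₁, UF μ ψ₁ ∧ Inc μ C S^[p] ψ₁ ∧
      AM μ E (fun x => conj (h x) * ψ₁ x) ∧
      (AM μ D ψ₁ ∨ ∀ ψ, UF μ ψ → Inc μ C S^[p] ψ → AM μ E (fun x => conj (h x) * ψ x) →
        ¬ AM μ D ψ) := by
    by_cases h1 : ∃ ψ, UF μ ψ ∧ Inc μ C S^[p] ψ ∧ AM μ E (fun x => conj (h x) * ψ x) ∧ AM μ D ψ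
    · obtain ⟨ψ, a, b, c, d⟩ := h1
      exact ⟨ψ, a, b, c, Or.inl d⟩
    · obtain ⟨ψ, a, b, c⟩ := hne
      exact ⟨ψ, a, b, c, Or.inr fun ψ' a' b' c' d' => h1 ⟨ψ', a', b', c', d'⟩⟩
  set Θ : Set (Ω → ℂ) := Th μ C E S^[p] with hΘd
  have hΘ : Grp μ Θ := grp_Th
  have hDD : Lm (jo C (sg Θ)) := lm_jo hCl (lm_sg fun φ hφ => (hΘ.uf φ hφ).1)
  have hDq : LQ μ (jo C (sg Θ)) E := lq_jo hCE (lq_sg fun u hu => hu.2.1)
  -- products with elements of `Θ`
  have hmul : ∀ θ ∈ Θ, UF μ (fun x => ψ₁ x * conj (θ x)) ∧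
      Inc μ C S^[p] (fun x => ψ₁ x * conj (θ x)) ∧
      AM μ E (fun x => conj (h x) * (ψ₁ x * conj (θ x))) := by
    intro θ hθ
    refine ⟨hψ₁.mul hθ.1.conj, hψ₁i.mul hθ.2.2.conj, ?_⟩
    refine am_congr (am_mul hψ₁E (am_conj hθ.2.1)) (Eventually.of_forall fun x => ?_)
    show conj (h x) * ψ₁ x * conj (θ x) = conj (h x) * (ψ₁ x * conj (θ x))
    ring
  have hdiv : ∀ ψ, UF μ ψ → Inc μ C S^[p] ψ → AM μ E (fun x => conj (h x) * ψ x) →
      (fun x => conj (ψ x) * ψ₁ x) ∈ Θ := by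
    intro ψ a b c
    refine ⟨a.conj.mul hψ₁, ?_, b.conj.mul hψ₁i⟩
    refine am_congr (am_mul (am_conj c) hψ₁E) ?_
    filter_upwards [hh.mul_conj] with x hx
    rw [map_mul, Complex.conj_conj]
    linear_combination (conj (ψ x) * ψ₁ x) * hx
  set g : Ω → ℂ := fun x => conj (ψ₁ x) * F x with hg
  have hgb : AB μ g := hψ₁.conj.ab.mul hFb
  set Eg : Ω → ℂ := μ[g|jo C (sg Θ)] with hEg
  have hEgb : AB μ Eg := hgb.ce hDD
  have hEgA : AM μ (jo C (sg Θ)) Eg := ce_am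
  obtain ⟨F₁, hF₁, hF₁e⟩ := (hψ₁.ab.mul hEgb).bf
  set F₂ : Ω → ℂ := fun x => F x - F₁ x with hF₂
  have hF₂b : BF F₂ := bf_sub hF hF₁
  have hF₂e : F₂ =ᵐ[μ] fun x => ψ₁ x * (g x - Eg x) := by
    filter_upwards [hF₁e, hψ₁.mul_conj] with x hx hx2
    have e1 : F x = ψ₁ x * g x := by
      simp only [hg]
      rw [← mul_assoc, hx2, one_mul]
    simp only [hF₂]
    rw [hx, e1]; ring
  have hdiff : μ[fun x => g x - Eg x|jo C (sg Θ)] =ᵐ[μ] 0 := by
    have h1 := ce_sub (𝒜 := jo C (sg Θ)) hgb.int hEgb.int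
    have h2 := ce_of_am hDD hEgb.int hEgA
    filter_upwards [h1, h2] with x hx hx2
    rw [hx, hx2]; simp [hEg]
  have h0 : ∀ ψ, UF μ ψ → Inc μ C S^[p] ψ → AM μ E (fun x => conj (h x) * ψ x) →
      μ[fun x => conj (ψ x) * F₂ x|C] =ᵐ[μ] 0 := by
    intro ψ a b c
    have hu := hdiv ψ a b c
    have hub := hu.1.ab
    have h1 : μ[fun x => (conj (ψ x) * ψ₁ x) * (g x - Eg x)|jo C (sg Θ)] =ᵐ[μ] 0 :=
      ce_mul_zero (am_jo_right (am_sg hu)) (hub.int_mul (hgb.sub hEgb).int)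
        (hgb.sub hEgb).int hdiff
    have h2 := ce_zero_lq hCl hDD lq_jo_left (hub.mul (hgb.sub hEgb)).int h1
    refine (ce_congr ?_).trans h2
    filter_upwards [hF₂e] with x hx
    rw [hx]; ring
  have hF₂a : AM μ E (fun x => conj (h x) * F₂ x) := by
    have h1 : AM μ E (fun x => conj (h x) * ψ₁ x * Eg x) := am_mul hψ₁E (hDq _ hEgA)
    refine am_congr (am_sub hFE h1) ?_
    filter_upwards [hF₁e] with x hx
    simp only [hF₂]
    rw [hx]; ring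
  refine ⟨F₁, F₂, hF₁, hF₂b, Eventually.of_forall fun x => ?_, hF₂a, h0, ?_, ?_⟩
  · simp only [hF₂]; ring
  · have e1 : ∫ x, ‖F₂ x‖ ^ 2 ∂μ = ∫ x, ‖g x - Eg x‖ ^ 2 ∂μ := by
      refine integral_congr_ae ?_
      filter_upwards [hF₂e, hψ₁.2] with x hx hx2
      rw [hx, norm_mul, hx2, one_mul]
    have e2 : ∫ x, ‖F x‖ ^ 2 ∂μ = ∫ x, ‖g x‖ ^ 2 ∂μ := by
      refine integral_congr_ae ?_
      filter_upwards [hψ₁.2] with x hx2
      simp only [hg]
      rw [norm_mul, RCLike.norm_conj, hx2, one_mul]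
    rw [e1, e2]
    exact sub_ce_sq hDD hgb.memLp
  -- `J F₁ = 0`
  refine ce_zero lm_B2 (hF₁.ab.comp hmp1).int fun s hsm => ?_
  have hk : AB κ (ind s) := ab_ind lm_B2 hsm
  obtain ⟨K, hK, hKk⟩ := exists_K hPFC hmp1 hk
  have e1 : ∀ u : Ω → ℂ, AB μ u → ∫ z, ind s z * u z.1 ∂κ = ∫ x, u x * K x ∂μ := by
    intro u hu
    rw [← hKk u hu]
    exact integral_congr_ae (Eventually.of_forall fun z => mul_comm _ _)
  rw [e1 _ hF₁.ab]
  set L : Ω → ℂ := fun x => ψ₁ x * K x with hL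
  have hLb : AB μ L := hψ₁.ab.mul hK
  -- invisible functions of the class
  have inv : ∀ θ ∈ Θ, ¬ AM μ D (fun x => ψ₁ x * conj (θ x)) →
      μ[fun x => conj (θ x) * L x|C] =ᵐ[μ] 0 := by
    intro θ hθ hna
    obtain ⟨m1, m2, m3⟩ := hmul θ hθ
    have m2D : Inc μ D S^[p] (fun x => ψ₁ x * conj (θ x)) := Inc.lq hCD m2
    have hnv : ¬ Vi κ D (fun x => ψ₁ x * conj (θ x)) := fun hv => hna (hH.b _ m1 m2D hv)
    refine ce_zero hCl (hθ.1.conj.ab.mul hLb).int fun t ht => ?_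
    have hcA : AM μ C (ind t) := am_ind _ ht
    have hcb : AB μ (ind t) := ab_ind hCl ht
    have b1 := invis hLZ hIAJ hPFC hS hJ hDi m1 m2D hnv hcb (hCD _ hcA)
    have b2 : ∫ z, ind s z * (ind t z.1 * (ψ₁ z.1 * conj (θ z.1))) ∂κ = 0 :=
      Pool.Agent.Helper73.TWR.int_zero_of_ce lm_B2 (am_ind κ hsm)
        (hk.mul ((hcb.mul m1.ab).comp hmp1)).int ((hcb.mul m1.ab).comp hmp1).int b1
    rw [e1 (fun x => ind t x * (ψ₁ x * conj (θ x))) (hcb.mul m1.ab)] at b2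
    rw [← b2]
    refine integral_congr_ae (Eventually.of_forall fun x => ?_)
    show ind t x * (conj (θ x) * (ψ₁ x * K x)) = ind t x * (ψ₁ x * conj (θ x)) * K x
    ring
  have c0 : ∫ x, F₁ x * K x ∂μ = ∫ x, Eg x * L x ∂μ := by
    refine integral_congr_ae ?_
    filter_upwards [hF₁e] with x hx
    rw [hx]; simp only [hL]; ring
  rw [c0]
  have c1 : ∫ x, Eg x * L x ∂μ = ∫ x, g x * (μ[L|jo C (sg Θ)]) x ∂μ := ce_symm hDD hgb hLb
  rcases hψ₁D with hd | hd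
  · -- the function of the class is measurable for `D`
    set EL : Ω → ℂ := μ[L|C] with hEL
    have hELb : AB μ EL := hLb.ce hCl
    have hELA : AM μ C EL := ce_am
    have hgC : μ[g|C] =ᵐ[μ] 0 := hyp ψ₁ hψ₁ hψ₁i hψ₁E hd
    have hz : μ[fun x => L x - EL x|jo C (sg Θ)] =ᵐ[μ] 0 := by
      refine dnsz hDNS hCl hΘ (hLb.sub hELb).int fun θ hθ => ?_
      have hθb := hθ.1.conj.ab
      have f1 : μ[fun x => conj (θ x) * L x - conj (θ x) * EL x|C] =ᵐ[μ]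
          fun x => (μ[fun x => conj (θ x) * L x|C]) x - (μ[fun x => conj (θ x) * EL x|C]) x :=
        ce_sub (hθb.mul hLb).int (hθb.mul hELb).int
      have f0 : (fun x => conj (θ x) * (L x - EL x)) =ᵐ[μ]
          fun x => conj (θ x) * L x - conj (θ x) * EL x :=
        Eventually.of_forall fun x => by ring
      have f2 : μ[fun x => conj (θ x) * EL x|C] =ᵐ[μ] fun x => EL x * (μ[fun x => conj (θ x)|C]) x := by
        refine (ce_congr (Eventually.of_forall fun x => mul_comm _ _)).trans ?_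
        exact pullb hELA hELb hθb.int
      by_cases hθC : AM μ C θ
      · have f3 : μ[fun x => conj (θ x) * L x|C] =ᵐ[μ] fun x => conj (θ x) * EL x :=
          pullb (am_conj hθC) hθb hLb.int
        have f4 : μ[fun x => conj (θ x)|C] =ᵐ[μ] fun x => conj (θ x) :=
          ce_of_am hCl hθb.int (am_conj hθC)
        filter_upwards [(ce_congr f0).trans f1, f2, f3, f4] with x h1 h2 h3 h4
        rw [h1, h2, h3, h4]
        show conj (θ x) * EL x - EL x * conj (θ x) = 0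
        ring
      · have hna : ¬ AM μ D (fun x => ψ₁ x * conj (θ x)) := by
          intro hcon
          apply hθC
          refine (hCiff θ).2 ⟨?_, hθ.2.1⟩
          refine am_congr (am_mul (am_conj hcon) hd) ?_
          filter_upwards [hψ₁.conj_mul] with x hx
          rw [map_mul, Complex.conj_conj]
          linear_combination θ x * hx
        have f3 := inv θ hθ hna
        have f4 : μ[fun x => conj (θ x)|C] =ᵐ[μ] 0 := by
          rcases hLZ Ω μ _ _ C (fun x => conj (θ x)) hsp hep (hCi.iterate p) hθ.1.conj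
            hθ.2.2.conj with h5 | h5
          · exact h5
          · exact absurd (am_congr (am_conj h5) (Eventually.of_forall fun x => by simp)) hθC
        filter_upwards [(ce_congr f0).trans f1, f2, f3, f4] with x h1 h2 h3 h4
        rw [h1, h2, h3, h4]
        simp
    have f5 : μ[L|jo C (sg Θ)] =ᵐ[μ] EL := by
      have k1 := ce_sub (𝒜 := jo C (sg Θ)) hLb.int hELb.int
      have k2 := ce_of_am hDD hELb.int (am_jo_left hELA)
      filter_upwards [hz, k1, k2] with x h1 h2 h3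
      rw [h2, h3] at h1
      exact sub_eq_zero.1 h1
    rw [c1]
    have c2 : ∫ x, g x * (μ[L|jo C (sg Θ)]) x ∂μ = ∫ x, g x * EL x ∂μ := by
      refine integral_congr_ae ?_
      filter_upwards [f5] with x hx
      rw [hx]
    rw [c2, ← ce_symm hCl hgb hLb]
    have c3 : (fun x => (μ[g|C]) x * L x) =ᵐ[μ] fun _ => 0 := by
      filter_upwards [hgC] with x hx
      rw [hx]; simp
    rw [integral_congr_ae c3]; simp
  · have hz : μ[L|jo C (sg Θ)] =ᵐ[μ] 0 := by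
      refine dnsz hDNS hCl hΘ hLb.int fun θ hθ => ?_
      obtain ⟨m1, m2, m3⟩ := hmul θ hθ
      exact inv θ hθ (hd _ m1 m2 m3)
    rw [c1]
    have c3 : (fun x => g x * (μ[L|jo C (sg Θ)]) x) =ᵐ[μ] fun _ => 0 := by
      filter_upwards [hz] with x hx
      rw [hx]; simp
    rw [integral_congr_ae c3]; simp

end Pool.Agent.Helper73.TA
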